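import Pool.Agent.Q136.BM.All

/-!
# MP_cc4361_co, Q1: three endomorphisms with sum zero, dense sets

`folnerDensity A` is the upper Banach density of `A`, the supremum over the Folner sequences
(`IsFolner`) of the upper densities of `A` along them; `bohr χ η` is the Bohr set of the characters
`χ j : G → S¹` and the radius `η`; `φ.range.index` is the index of the image of `φ` (`0` if it is
infinite).
-/

namespace Pool.Agent.Results.MP_cc4361_co.DensityThree

open Q136.BM

universe u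

/-- For endomorphisms `φ₁, φ₂, φ₃` of an abelian group `G` (not assumed to commute) with
`φ₁ + φ₂ + φ₃ = 0` whose images have finite index, and `A ⊆ G` of positive upper Banach density,
`φ₁(A) + φ₂(A) + φ₃(A)` contains a Bohr-`(k, η)` set with `k`, `η` depending only on the density
and on the indices. -/
theorem result (δ : ℝ) (hδ : 0 < δ) (n₁ n₂ n₃ : ℕ) (h₁ : n₁ ≠ 0) (h₂ : n₂ ≠ 0) (h₃ : n₃ ≠ 0) :
    ∃ (k : ℕ) (η : ℝ), 0 < η ∧ ∀ (G : Type u) [AddCommGroup G] (φ₁ φ₂ φ₃ : G →+ G),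
      φ₁.range.index = n₁ → φ₂.range.index = n₂ → φ₃.range.index = n₃ → φ₁ + φ₂ + φ₃ = 0 →
      ∀ A : Set G, δ ≤ folnerDensity A → ∃ χ : Fin k → AddChar G Circle,
        bohr χ η ⊆ {g : G | ∃ a ∈ A, ∃ b ∈ A, ∃ c ∈ A, φ₁ a + φ₂ b + φ₃ c = g} :=
  density_three core_full Q110.BM.erg δ hδ n₁ n₂ n₃ h₁ h₂ h₃

end Pool.Agent.Results.MP_cc4361_co.DensityThree
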