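import Pool.Agent.Q136.BM.All

/-!
# MP_cc4361_co, Q2: two endomorphisms, finite partitions

`bohr χ η` is the Bohr set of the characters `χ j : G → S¹` and the radius `η`; `φ.range.index` is
the index of the image of `φ` (`0` if it is infinite).
-/

namespace Pool.Agent.Results.MP_cc4361_co.PartitionThree

open Q136.BM

universe u

/-- For endomorphisms `φ₁, φ₂` of an abelian group `G` (not assumed to commute, `G` not assumed
countable) whose images have finite index, every partition of `G` into `r` sets has a cell `A i`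
such that `φ₁(A i) + φ₂(A i) - φ₂(A i)` contains a Bohr-`(k, η)` set, with `k`, `η` depending only
on `r` and on the two indices. -/
theorem result (r : ℕ) (hr : 0 < r) (n₁ n₂ : ℕ) (h₁ : n₁ ≠ 0) (h₂ : n₂ ≠ 0) :
    ∃ (k : ℕ) (η : ℝ), 0 < η ∧ ∀ (G : Type u) [AddCommGroup G] (φ₁ φ₂ : G →+ G),
      φ₁.range.index = n₁ → φ₂.range.index = n₂ →
      ∀ A : Fin r → Set G, (∀ x, ∃ i, x ∈ A i) → (∀ i j, i ≠ j → Disjoint (A i) (A j)) →
      ∃ i, ∃ χ : Fin k → AddChar G Circle,
        bohr χ η ⊆ {g : G | ∃ a ∈ A i, ∃ b ∈ A i, ∃ c ∈ A i, φ₁ a + φ₂ b - φ₂ c = g} :=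
  partition_three part2_full r hr n₁ n₂ h₁ h₂

end Pool.Agent.Results.MP_cc4361_co.PartitionThree
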